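import Pool.Agent.W295.NL.StmD

set_option autoImplicit false

namespace Pool.Agent.W159.NL.DM

open Pool.Agent.W295.NL Finset

theorem modlt {m a b : ℕ} (ha : a < m) (hb : b < m) (h : a ≡ b [MOD m]) : a = b := by
  have := h
  unfold Nat.ModEq at this
  rwa [Nat.mod_eq_of_lt ha, Nat.mod_eq_of_lt hb] at this

theorem main : Pool.Agent.W295.NL.S_DM := by
  classical
  intro Q _ L hn hM
  have := Fintype.ofFinite Q
  obtain ⟨-, hn0, X, κ, hC, -, hX⟩ := hM
  set n := Nat.card Q with hnn
  have h2n : 0 < 2 * n := by omega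
  -- injectivity
  have hinj : ∀ t, t < 2 * n → ∀ t', t' < 2 * n → X 0 t = X 0 t' → X 1 t = X 1 t' → t = t' := by
    intro t ht t' ht' h0 h1
    have h2 : X 2 t = X 2 t' := by rw [hC.sym, hC.sym, h0, h1]
    have hall : ∀ a, X a t = X a t' := by
      intro a
      fin_cases a
      · exact h0
      · exact h1
      · exact h2
    by_contra hne
    have hne' : ¬ t' ≡ t [MOD 2 * n] := fun h => hne (modlt ht' ht h).symm
    have hA : t' ≡ t + 1 [MOD 2 * n] := by
      rcases hX (κ (t + 1)) t t' (hall _) with h | h | h | h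
      · exact absurd h hne'
      · exact h.2
      · exact absurd h.1.symm (hC.kne t)
      · exact absurd rfl h.2.1
    have hB : t' + 1 ≡ t [MOD 2 * n] := by
      rcases hX (κ t) t t' (hall _) with h | h | h | h
      · exact absurd h hne'
      · exact absurd h.1 (hC.kne t)
      · exact h.2
      · exact absurd rfl h.1
    have hD : t + 2 ≡ t + 0 [MOD 2 * n] := by
      have h3 : t + 2 ≡ t' + 1 [MOD 2 * n] := (Nat.ModEq.add_right 1 hA).symm
      exact h3.trans hB
    have hE : 2 ≡ 0 [MOD 2 * n] := Nat.ModEq.add_left_cancel' t hD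
    have hF : 2 = 0 := modlt (by omega) h2n hE
    omega
  -- at most two
  have hle : ∀ (a : Fin 3) (s : Q), ((range (2 * n)).filter (fun t => X a t = s)).card ≤ 2 := by
    intro a s
    by_cases hemp : ((range (2 * n)).filter (fun t => X a t = s)) = ∅
    · rw [hemp]; simp
    obtain ⟨t, ht⟩ := Finset.nonempty_iff_ne_empty.mpr hemp
    rw [mem_filter, mem_range] at ht
    obtain ⟨ht, hts⟩ := ht
    have hu : ∃ u, ∀ t', t' < 2 * n → X a t' = s → t' = t ∨ t' = u := by
      by_cases c1 : a = κ (t + 1)
      · refine ⟨(t + 1) % (2 * n), ?_⟩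
        intro t' ht' hs
        rcases hX a t t' (by rw [hts, hs]) with h | h | h | h
        · left; exact modlt ht' ht h
        · right
          apply modlt ht' (Nat.mod_lt _ h2n)
          exact h.2.trans (Nat.mod_modEq _ _).symm
        · exact absurd (h.1.symm.trans c1) (hC.kne t)
        · exact absurd c1 h.2.1
      · by_cases c2 : a = κ t
        · refine ⟨(t + (2 * n - 1)) % (2 * n), ?_⟩
          intro t' ht' hs
          rcases hX a t t' (by rw [hts, hs]) with h | h | h | h
          · left; exact modlt ht' ht h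
          · exact absurd h.1 c1
          · right
            apply modlt ht' (Nat.mod_lt _ h2n)
            refine Nat.ModEq.trans ?_ (Nat.mod_modEq _ _).symm
            have h5 : t' + 1 ≡ (t + (2 * n - 1)) + 1 [MOD 2 * n] := by
              have h6 : (t + (2 * n - 1)) + 1 = t + 2 * n := by omega
              rw [h6]
              refine h.2.trans ?_
              exact (Nat.ModEq.refl t).trans (by simp [Nat.ModEq])
            exact Nat.ModEq.add_right_cancel' 1 h5
          · exact absurd c2 h.1
        · refine ⟨(t + n) % (2 * n), ?_⟩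
          intro t' ht' hs
          rcases hX a t t' (by rw [hts, hs]) with h | h | h | h
          · left; exact modlt ht' ht h
          · exact absurd h.1 c1
          · exact absurd h.1 c2
          · right
            apply modlt ht' (Nat.mod_lt _ h2n)
            exact h.2.2.trans (Nat.mod_modEq _ _).symm
    obtain ⟨u, hu⟩ := hu
    calc ((range (2 * n)).filter (fun t => X a t = s)).card ≤ ({t, u} : Finset ℕ).card := by
          apply card_le_card
          intro t' ht'
          rw [mem_filter, mem_range] at ht'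
          rw [mem_insert, mem_singleton]
          exact hu t' ht'.1 ht'.2
      _ ≤ 2 := Finset.card_le_two
  have heq : ∀ (a : Fin 3) (s : Q), ((range (2 * n)).filter (fun t => X a t = s)).card = 2 := by
    intro a
    have hsum : ∑ s : Q, ((range (2 * n)).filter (fun t => X a t = s)).card = ∑ s : Q, 2 := by
      rw [← Finset.card_eq_sum_card_fiberwise (fun t _ => Finset.mem_coe.mpr (mem_univ (X a t)))]
      rw [card_range, sum_const, card_univ, smul_eq_mul, hnn, Nat.card_eq_fintype_card, mul_comm]
    intro s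
    have := (Finset.sum_eq_sum_iff_of_le (fun s _ => hle a s)).mp hsum s (mem_univ s)
    exact this
  -- counting
  have hcnt : ∀ (a : Fin 3) (g : Q × Q → Q) (s : Q), (∀ t, g (X 0 t, X 1 t) = X a t) →
      {p : Q × Q | p ∈ {p : Q × Q | ∃ t, t < 2 * n ∧ p = (X 0 t, X 1 t)} ∧ g p = s}.ncard = 2 := by
    intro a g s hg
    have hset : {p : Q × Q | p ∈ {p : Q × Q | ∃ t, t < 2 * n ∧ p = (X 0 t, X 1 t)} ∧ g p = s} =
        (fun t => (X 0 t, X 1 t)) '' (((range (2 * n)).filter (fun t => X a t = s) : Finset ℕ) : Set ℕ) := by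
      ext p
      simp only [Set.mem_ofPred_eq, Set.mem_image, Finset.coe_filter, mem_range]
      constructor
      · rintro ⟨⟨t, ht, rfl⟩, hp⟩
        exact ⟨t, ⟨ht, by rw [← hg t]; exact hp⟩, rfl⟩
      · rintro ⟨t, ⟨ht, hs⟩, rfl⟩
        exact ⟨⟨t, ht, rfl⟩, by rw [hg t]; exact hs⟩
    rw [hset, Set.ncard_image_of_injOn, Set.ncard_coe_finset, heq]
    intro t ht t' ht' h
    have ht1 := (mem_filter.mp (Finset.mem_coe.mp ht)).1
    have ht2 := (mem_filter.mp (Finset.mem_coe.mp ht')).1
    rw [mem_range] at ht1 ht2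
    have h0 := congrArg Prod.fst h
    have h1 := congrArg Prod.snd h
    exact hinj t ht1 t' ht2 h0 h1
  refine ⟨{p : Q × Q | ∃ t, t < 2 * n ∧ p = (X 0 t, X 1 t)}, ?_, ?_, ?_⟩
  · intro r
    exact hcnt 0 Prod.fst r (fun t => rfl)
  · intro c
    exact hcnt 1 Prod.snd c (fun t => rfl)
  · intro s
    exact hcnt 2 (fun p => L p.1 p.2) s (fun t => (hC.sym t).symm)

end Pool.Agent.W159.NL.DM
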